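import Pool.Agent.H79.FFM.Conj

/-!
# Board ffm_modules, row DGC: the degree of a conjugate of an iterate
-/

set_option autoImplicit false

open MvPolynomial
open Pool.Agent.H12.ZD (pmap)
open Pool.Agent.H55.FFM
open Pool.Agent.H18.HIT

namespace Pool.Agent.H79.FFM

lemma deh_bij_gen {K L : Type} [Field K] [Field L] (σ : K →+* L) (h : Function.Bijective σ) :
    @Module.finrank K L _ _ σ.toAlgebra.toModule = 1 := by
  letI : Algebra K L := σ.toAlgebra
  have h1 : Module.finrank K L = Module.finrank K K := by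
    refine Algebra.finrank_eq_of_equiv_equiv (RingEquiv.refl K) (RingEquiv.ofBijective σ h).symm ?_
    ext x
    show x = (RingEquiv.ofBijective σ h).symm (σ x)
    rw [RingEquiv.eq_symm_apply]
    rfl
  rw [h1, Module.finrank_self]

lemma deh_bij {F : Type} [Field F] (σ : F →+* F) (h : Function.Bijective σ) : deh σ = 1 :=
  deh_bij_gen σ h

lemma deh_itA (hCMP : T_CMP) {N : ℕ} {k : Type} [Field k] (τ : KN N k →ₐ[k] KN N k)
    (h : 1 ≤ deh (τ : KN N k →+* KN N k)) (m : ℕ) :
    deh (itA τ m : KN N k →+* KN N k) = deh (τ : KN N k →+* KN N k) ^ m := by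
  induction m with
  | zero =>
    rw [pow_zero]
    exact deh_bij _ Function.bijective_id
  | succ m ih =>
    have h1 : (itA τ (m + 1) : KN N k →+* KN N k) =
        (τ : KN N k →+* KN N k).comp (itA τ m : KN N k →+* KN N k) := rfl
    rw [h1, (hCMP _ _ _ h (by rw [ih]; exact Nat.one_le_pow _ _ h)).1, ih, pow_succ, mul_comm]

theorem pf_DGC (hCMP : T_CMP) : T_DGC := by
  intro N k _ _ f G K₀ a t τ₀ τ hC h₀ hτ hd
  set l : KN N k ≃ₐ[k] KN N k := lamE a t hC.1 with hl
  have h1 : (τ : KN N k →+* KN N k) =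
      ((l : KN N k →+* KN N k).comp (itA τ₀ K₀ : KN N k →+* KN N k)).comp
        (l.symm : KN N k →+* KN N k) := by
    ext y
    show τ y = l (itA τ₀ K₀ (l.symm y))
    rw [itA_apply, hl, conj_field hC h₀ hτ, AlgEquiv.apply_symm_apply]
  have h2 : deh (l : KN N k →+* KN N k) = 1 := deh_bij _ l.bijective
  have h3 : deh (l.symm : KN N k →+* KN N k) = 1 := deh_bij _ l.symm.bijective
  have h4 := deh_itA hCMP τ₀ hd K₀
  have h5 : 1 ≤ deh (itA τ₀ K₀ : KN N k →+* KN N k) := by
    rw [h4]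
    exact Nat.one_le_pow _ _ hd
  have h6 := (hCMP _ (l : KN N k →+* KN N k) (itA τ₀ K₀ : KN N k →+* KN N k) h2.ge h5).1
  rw [h2, one_mul, h4] at h6
  have h7 := (hCMP _ ((l : KN N k →+* KN N k).comp (itA τ₀ K₀ : KN N k →+* KN N k))
    (l.symm : KN N k →+* KN N k) (by rw [h6]; exact Nat.one_le_pow _ _ hd) h3.ge).1
  rw [h1, h7, h6, h3, mul_one]

end Pool.Agent.H79.FFM
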