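import Pool.Agent.H55.FFM.TD

/-!
# Board ffm_modules, row DGN: the degree of the extension and of a primitive element
-/

set_option autoImplicit false

open MvPolynomial
open Pool.Agent.H55.FFM
open Pool.Agent.H18.HIT

namespace Pool.Agent.H79.FFM

/-- for two fields -/
lemma dgn_gen {A K L : Type} [CommRing A] [IsDomain A] [IsIntegrallyClosed A] [Field K]
    [Algebra A K] [IsFractionRing A K] [Field L] (τ : K →+* L) (t : L) (Φ : Polynomial A)
    (hm : Φ.Monic) (hi : Irreducible Φ)
    (hr : Φ.eval₂ (τ.comp (algebraMap A K)) t = 0)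
    (hgen : ∀ S : Subfield L, (∀ c : K, τ c ∈ S) → t ∈ S → ∀ y, y ∈ S) :
    @Module.finrank K L _ _ τ.toAlgebra.toModule = Φ.natDegree := by
  letI : Algebra K L := τ.toAlgebra
  have hmap : (Φ.map (algebraMap A K)).Monic := hm.map _
  have hirr : Irreducible (Φ.map (algebraMap A K)) :=
    (Polynomial.Monic.irreducible_iff_irreducible_map_fraction_map hm).1 hi
  have hroot : Polynomial.aeval t (Φ.map (algebraMap A K)) = 0 := by
    rw [Polynomial.aeval_def, Polynomial.eval₂_map]
    exact hr
  have hmin := minpoly.eq_of_irreducible_of_monic hirr hroot hmap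
  have hint : IsIntegral K t := ⟨_, hmap, hroot⟩
  have h1 := IntermediateField.adjoin.finrank hint
  rw [← hmin, hm.natDegree_map] at h1
  have htop : IntermediateField.adjoin K {t} = ⊤ := by
    rw [eq_top_iff]
    intro y _
    exact hgen (IntermediateField.adjoin K {t}).toSubfield
      (fun c => (IntermediateField.adjoin K {t}).algebraMap_mem c)
      (IntermediateField.mem_adjoin_simple_self K t) y
  rw [htop, IntermediateField.finrank_top'] at h1
  exact h1

section

variable {N : ℕ} {k : Type} [Field k]

lemma fr_mul (p q : Po N k) : fr (p * q) = fr p * fr q := map_mul _ _ _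

lemma fr_add (p q : Po N k) : fr (p + q) = fr p + fr q := map_add _ _ _

lemma fr_zero : fr (0 : Po N k) = 0 := map_zero _

end

theorem pf_DGN (_hTMX : T_TMX) (_hBAS : T_BAS) : T_DGN := by
  intro N k _ G τ θ Φ Δ R hinj hE hP
  have hcomp : (τ : KN N k →+* KN N k).comp (algebraMap (Po N k) (KN N k)) =
      (algebraMap (Po N k) (KN N k)).comp (aeval G : Po N k →ₐ[k] Po N k).toRingHom := by
    refine RingHom.ext fun q => ?_
    exact hE q
  have hev : ∀ p : Polynomial (Po N k), fr (ev2 G θ p) =
      p.eval₂ ((τ : KN N k →+* KN N k).comp (algebraMap (Po N k) (KN N k))) (fr θ) := by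
    intro p
    rw [hcomp]
    exact Polynomial.hom_eval₂ p _ _ _
  refine dgn_gen (A := Po N k) (τ : KN N k →+* KN N k) (fr θ) Φ hP.monic hP.irr ?_ ?_
  · rw [← hev, hP.root, fr_zero]
  · intro S hS ht y
    have hX : ∀ i, fr (X i : Po N k) ∈ S := by
      intro i
      have h1 : fr (ev2 G θ (R i)) ∈ S := by
        rw [hev, Polynomial.eval₂_eq_sum_range]
        apply S.sum_mem
        intro j _
        exact S.mul_mem (hS _) (S.pow_mem ht j)
      rw [← hP.coord i, fr_mul, ← hE] at h1
      have h2 : τ (fr Δ) ≠ 0 := by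
        rw [map_ne_zero]
        exact (map_ne_zero_iff _ (IsFractionRing.injective (Po N k) (KN N k))).2 hP.ne
      have h3 := S.mul_mem (S.inv_mem (hS (fr Δ))) h1
      have h4 : ((τ : KN N k →+* KN N k) (fr Δ))⁻¹ * (τ (fr Δ) * fr (X i : Po N k)) =
          fr (X i : Po N k) := by
        have h5 : (τ : KN N k →+* KN N k) (fr Δ) = τ (fr Δ) := rfl
        rw [h5, ← mul_assoc, inv_mul_cancel₀ h2, one_mul]
      rwa [h4] at h3
    have hq : ∀ q : Po N k, fr q ∈ S := by
      intro q
      induction q using MvPolynomial.induction_on with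
      | C a =>
        have h1 : τ (fr (C a)) = fr (C a) := by
          rw [hE]
          congr 1
          exact aeval_C _ _
        rw [← h1]
        exact hS _
      | add p q hp hq =>
        rw [fr_add]
        exact S.add_mem hp hq
      | mul_X p i hp =>
        rw [fr_mul]
        exact S.mul_mem hp (hX i)
    obtain ⟨a, b, -, hab⟩ := IsFractionRing.div_surjective (A := Po N k) y
    rw [← hab]
    exact S.div_mem (hq a) (hq b)

end Pool.Agent.H79.FFM
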