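import Pool.Agent.H79.FFM.Conj

/-!
# Board ffm_modules, row GRB: growth of a conjugate of an iterate
-/

set_option autoImplicit false

open MvPolynomial
open Pool.Agent.H12.ZD (pmap)
open Pool.Agent.H55.FFM
open Pool.Agent.H18.HIT
open Pool.Agent.H8.TD (lc Wsp K3 xx ph)

namespace Pool.Agent.H79.FFM

section

variable {k K : Type} [Field k] [Field K] [Algebra k K]

lemma dg_map (e : K ≃ₐ[k] K) (S : Set K) : dg k (e '' S) = dg k S := by
  unfold dg
  have h : IntermediateField.adjoin k (e '' S) =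
      (IntermediateField.adjoin k S).map (e : K →ₐ[k] K) :=
    (IntermediateField.adjoin_map k S (e : K →ₐ[k] K)).symm
  rw [h]
  symm
  refine Algebra.finrank_eq_of_equiv_equiv
    ((IntermediateField.adjoin k S).equivMap (e : K →ₐ[k] K)).toRingEquiv e.toRingEquiv ?_
  ext x
  rfl

lemma aff_mem (L : IntermediateField k K) (c t : k) (ht : t ≠ 0) (u : K) :
    algebraMap k K c + t • u ∈ L ↔ u ∈ L := by
  constructor
  · intro h
    have h1 := L.sub_mem h (L.algebraMap_mem c)
    rw [add_sub_cancel_left] at h1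
    have h2 := L.smul_mem h1 (x := t⁻¹)
    rwa [smul_smul, inv_mul_cancel₀ ht, one_smul] at h2
  · intro h
    exact L.add_mem (L.algebraMap_mem c) (L.smul_mem h)

lemma adjoin_aff (c₁ c₂ c₃ t : k) (ht : t ≠ 0) (u₁ u₂ u₃ : K) :
    IntermediateField.adjoin k {algebraMap k K c₁ + t • u₁, algebraMap k K c₂ + t • u₂,
      algebraMap k K c₃ + t • u₃} = IntermediateField.adjoin k {u₁, u₂, u₃} := by
  apply le_antisymm
  · rw [IntermediateField.adjoin_le_iff]
    intro x hx
    rcases hx with rfl | rfl | rfl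
    · exact (aff_mem _ _ _ ht _).2 (IntermediateField.subset_adjoin k _ (by simp))
    · exact (aff_mem _ _ _ ht _).2 (IntermediateField.subset_adjoin k _ (by simp))
    · exact (aff_mem _ _ _ ht _).2 (IntermediateField.subset_adjoin k _ (by simp))
  · rw [IntermediateField.adjoin_le_iff]
    intro x hx
    rcases hx with rfl | rfl | rfl
    · exact (aff_mem _ c₁ _ ht _).1 (IntermediateField.subset_adjoin k _ (by simp))
    · exact (aff_mem _ c₂ _ ht _).1 (IntermediateField.subset_adjoin k _ (by simp))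
    · exact (aff_mem _ c₃ _ ht _).1 (IntermediateField.subset_adjoin k _ (by simp))

lemma lc_aff (e : K ≃ₐ[k] K) (s a : Fin 3 → k) (t : k) (φ ψ : Fin 3 → K)
    (h : ∀ i, e (φ i) = algebraMap k K (a i) + t • ψ i) :
    e (lc s φ) = algebraMap k K (∑ i, s i * a i) + t • lc s ψ := by
  unfold lc
  rw [map_sum, map_sum, Finset.smul_sum, ← Finset.sum_add_distrib]
  apply Finset.sum_congr rfl
  intro i _
  rw [map_smul, h, smul_add, map_mul, Algebra.smul_def (s i) (algebraMap k K (a i)), smul_comm]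

end

theorem pf_GRB : T_GRB := by
  intro k _ _ f G K₀ a t τ₀ τ n M hC h₀ hτ hM s s' s''
  have hx : ∀ i, lamE a t hC.1 (xx k i) = algebraMap k (K3 k) (a i) + t • xx k i := by
    intro i
    show lamE a t hC.1 (fr (X i)) = _
    rw [lamE_fr, aeval_X]
    show algebraMap (Po 3 k) (K3 k) (C (a i) + C t * X i) = _
    rw [map_add, map_mul, Algebra.smul_def]
    rfl
  have hp : ∀ i, lamE a t hC.1 (ph τ₀ (K₀ * n) i) =
      algebraMap k (K3 k) (a i) + t • ph τ n i := by
    intro i
    show lamE a t hC.1 (τ₀^[K₀ * n] (xx k i)) = algebraMap k (K3 k) (a i) + t • τ^[n] (xx k i)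
    rw [conj_field_iter hC h₀ hτ, hx, ← itA_apply, map_add, map_smul, AlgHom.commutes,
      itA_apply]
  have h1 := hM s s' s''
  rw [← dg_map (lamE a t hC.1), Set.image_insert_eq, Set.image_insert_eq, Set.image_singleton,
    lc_aff _ s a t _ _ hx, lc_aff _ s' a t _ _ hp, lc_aff _ s'' a t _ _ hp] at h1
  unfold dg at h1 ⊢
  rwa [adjoin_aff _ _ _ t hC.1] at h1

end Pool.Agent.H79.FFM
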