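import Pool.Agent.H55.FFM.TP

/-!
# Board ffm_modules, row CSZ: functions without poles are constant
-/

set_option autoImplicit false

open Pool.Agent.H55.FFM

namespace Pool.Agent.H79.FFM

lemma bot_of_field (k F : Type) [Field k] [IsAlgClosed k] [Field F] [Algebra k F]
    (R : Subalgebra k F) (hfg : R.FG) (hR : IsField R) (r : F) (hr : r ∈ R) :
    ∃ c : k, r = algebraMap k F c := by
  have h1 : Algebra.FiniteType k R := Subalgebra.fg_iff_finiteType R |>.1 hfg
  letI : Field R := hR.toField
  have h2 : Module.Finite k R := finite_of_finite_type_of_isJacobsonRing k R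
  have h3 : Algebra.IsIntegral k R := inferInstance
  obtain ⟨c, hc⟩ := (IsAlgClosed.algebraMap_bijective_of_isIntegral (k := k) (K := R)).2 ⟨r, hr⟩
  exact ⟨c, (congrArg Subtype.val hc).symm⟩

theorem pf_CSZ (_hLOW : T_LOW) : T_CSZ := by
  intro k F _ _ _ _ _ R S _ v hC hP
  have hS : Nonempty S := by
    by_contra hS
    rw [not_nonempty_iff] at hS
    have hu : ∀ r : R, r ≠ 0 → IsUnit r := by
      intro r hr
      obtain ⟨hf, hl⟩ := hP.len r hr
      rw [Finset.univ_eq_empty, Finset.sum_empty, neg_zero] at hl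
      have h0 : Module.finrank k (R ⧸ Ideal.span {r}) = 0 := by exact_mod_cast hl
      have hs : Subsingleton (R ⧸ Ideal.span {r}) := Module.finrank_zero_iff.1 h0
      rw [Ideal.Quotient.subsingleton_iff] at hs
      exact Ideal.span_singleton_eq_top.1 hs
    have hF : IsField R := by
      refine ⟨⟨0, 1, zero_ne_one⟩, mul_comm, fun {a} ha => ?_⟩
      obtain ⟨b, hb⟩ := (hu a ha).exists_right_inv
      exact ⟨b, hb⟩
    obtain ⟨y, hy⟩ := hC.tra
    have h1 : IntermediateField.adjoin k (R : Set F) = ⊥ := by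
      rw [eq_bot_iff, IntermediateField.adjoin_le_iff]
      intro r hr
      obtain ⟨c, hc⟩ := bot_of_field k F R hC.fg hF r hr
      rw [hc]
      exact IntermediateField.algebraMap_mem _ c
    have h2 : y ∈ (⊤ : IntermediateField k F) := trivial
    rw [← hC.top, h1, IntermediateField.mem_bot] at h2
    obtain ⟨c, hc⟩ := h2
    apply hy
    rw [← hc]
    exact isAlgebraic_algebraMap c
  refine ⟨hS, ?_⟩
  intro r hr hr0 hv
  obtain ⟨s0⟩ := hS
  obtain ⟨c, hc⟩ := hP.res s0 r hr0 (hv s0)
  refine ⟨c, ?_⟩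
  rcases hc with hc | hc
  · exact hc
  by_contra hne
  have hq0 : r - algebraMap k F c ≠ 0 := sub_ne_zero.2 hne
  have hqR : r - algebraMap k F c ∈ R := R.sub_mem hr (R.algebraMap_mem c)
  have hq : ∀ s, 0 ≤ v s (r - algebraMap k F c) := by
    intro s
    by_cases hc0 : c = 0
    · rw [hc0, map_zero, sub_zero]
      exact hv s
    · have h1 : r - algebraMap k F c = r + algebraMap k F (-c) := by rw [map_neg, sub_eq_add_neg]
      have h2 : algebraMap k F (-c) ≠ 0 := by
        rw [map_neg, neg_ne_zero]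
        exact (map_ne_zero _).2 hc0
      have h3 := hP.add s r (algebraMap k F (-c)) hr0 h2 (h1 ▸ hq0)
      rw [hP.cst s (-c) (neg_ne_zero.2 hc0)] at h3
      rw [h1]
      exact le_trans (le_min (hv s) le_rfl) h3
  obtain ⟨-, hl⟩ := hP.len ⟨r - algebraMap k F c, hqR⟩ (by
    intro h
    exact hq0 (congrArg Subtype.val h))
  have h1 : v s0 (r - algebraMap k F c) ≤ ∑ s, v s (r - algebraMap k F c) :=
    Finset.single_le_sum (fun s _ => hq s) (Finset.mem_univ s0)
  simp only at hl
  have h2 : (0 : ℤ) ≤ (Module.finrank k (R ⧸ Ideal.span {(⟨r - algebraMap k F c, hqR⟩ : R)}) : ℤ) :=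
    Int.natCast_nonneg _
  omega

end Pool.Agent.H79.FFM
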