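import Pool.Agent.H79.FFM.Conj
import Pool.Agent.H18.HIT.Asm

/-!
# Board ffm_modules, row JCC: the jacobian of a conjugate of an iterate
-/

set_option autoImplicit false

open MvPolynomial
open Pool.Agent.H12.ZD (pmap)
open Pool.Agent.H55.FFM
open Pool.Agent.H18.HIT

namespace Pool.Agent.H79.FFM

variable {N : ℕ} {k : Type} [Field k]

lemma aeval_iter_eq (f : Tup N k) (m : ℕ) (q : Po N k) :
    (aeval f : Po N k →ₐ[k] Po N k)^[m] q = aeval (it f m) q := by
  induction m with
  | zero =>
    rw [it_zero, aeval_X_left]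
    rfl
  | succ m ih => rw [Function.iterate_succ_apply', ih, ← aeval_it_succ']

lemma comp_conj [Infinite k] {f G : Tup N k} {K₀ : ℕ} {a : Fin N → k} {t : k}
    (h : Cj f G K₀ a t) : comp (it f K₀) (Af a t) = comp (Af a t) G := by
  funext i
  have h1 := conj_poly h (X i)
  rw [aeval_iter_eq, aeval_X, aeval_X] at h1
  exact h1

lemma jac_Af (a : Fin N → k) (t : k) : jac (Af a t) = C (t ^ N) := by
  unfold jac
  have h1 : (Matrix.of fun i j => pderiv j (Af a t i)) = Matrix.diagonal fun _ : Fin N =>
      (C t : Po N k) := by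
    ext1 i j
    rw [Matrix.of_apply, Matrix.diagonal_apply]
    unfold Af
    rw [map_add, pderiv_C, zero_add, pderiv_C_mul, pderiv_X]
    by_cases hij : i = j
    · subst hij
      simp
    · rw [if_neg hij, Pi.single_eq_of_ne hij, mul_zero]
  rw [h1, Matrix.det_diagonal, Finset.prod_const, Finset.card_univ, Fintype.card_fin, ← C_pow]

lemma jac_X : jac (fun i => X i : Tup N k) = 1 := by
  unfold jac
  have h1 : (Matrix.of fun i j => pderiv j (X i : Po N k)) = (1 : Matrix (Fin N) (Fin N) _) := by
    ext1 i j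
    rw [Matrix.of_apply, Matrix.one_apply, pderiv_X]
    by_cases hij : i = j
    · subst hij
      simp
    · rw [if_neg hij, Pi.single_eq_of_ne hij]
  rw [h1, Matrix.det_one]

theorem pf_JCC (hCHR : T_CHR) : T_JCC := by
  intro N k _ _ f G K₀ a t hC hinj hJ c hc
  -- the iterate
  have hf0 : jac f ≠ 0 := by
    intro h
    exact hJ 0 (by rw [h, C_0])
  have h0 : ∀ m, jac (it f m) ≠ 0 := by
    intro m
    induction m with
    | zero =>
      rw [it_zero, jac_X]
      exact one_ne_zero
    | succ m ih =>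
      rw [it_succ, hCHR]
      refine mul_ne_zero ?_ ih
      intro h
      exact hf0 (aeval_it_injective hinj m (by rw [h, map_zero]))
  have h1 : ∀ m, 1 ≤ (jac (it f (m + 1))).totalDegree := by
    intro m
    have h2 : aeval (it f m) (jac f) ≠ 0 := by
      intro h
      exact hf0 (aeval_it_injective hinj m (by rw [h, map_zero]))
    rw [it_succ, hCHR, totalDegree_mul_of_isDomain h2 (h0 m)]
    by_contra hlt
    have h3 : (aeval (it f m) (jac f)).totalDegree = 0 := by omega
    rw [totalDegree_eq_zero_iff_eq_C] at h3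
    have h4 : aeval (it f m) (jac f) = aeval (it f m)
        (C (coeff 0 (aeval (it f m) (jac f))) : Po N k) := by
      rw [algHom_C, MvPolynomial.algebraMap_eq]
      exact h3
    exact hJ _ (aeval_it_injective hinj m h4)
  -- the conjugate
  have h5 := hCHR N k (it f K₀) (Af a t)
  rw [comp_conj hC, hCHR, jac_Af, algHom_C, MvPolynomial.algebraMap_eq, hc,
    mul_comm (aeval (Af a t) (jac (it f K₀)))] at h5
  have h6 : (C (t ^ N) : Po N k) ≠ 0 := by
    rw [Ne, C_eq_zero]
    exact pow_ne_zero _ hC.1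
  have h7 : aeval (Af a t) (C c : Po N k) = aeval (Af a t) (jac (it f K₀)) := by
    rw [algHom_C, MvPolynomial.algebraMap_eq]
    exact mul_left_cancel₀ h6 h5
  have h8 : (C c : Po N k) = jac (it f K₀) := (AfE a t hC.1).injective h7
  obtain ⟨m, hm⟩ : ∃ m, K₀ = m + 1 := ⟨K₀ - 1, by have := hC.2.1; omega⟩
  have h9 := h1 m
  rw [← hm, ← h8, totalDegree_C] at h9
  omega

end Pool.Agent.H79.FFM
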