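import Pool.Agent.H55.FFM.TD

/-!
# Board ffm_modules: conjugation by the affine map `z ↦ a + t z`
-/

set_option autoImplicit false

open MvPolynomial
open Pool.Agent.H12.ZD (pmap)
open Pool.Agent.H55.FFM
open Pool.Agent.H18.HIT

namespace Pool.Agent.H79.FFM

variable {N : ℕ} {k : Type} [Field k]

/-- the affine map -/
noncomputable def Af (a : Fin N → k) (t : k) : Tup N k := fun i => C (a i) + C t * X i

lemma eval_aeval' (G : Tup N k) (z : Fin N → k) (q : Po N k) :
    eval z (aeval G q) = eval (pmap G z) q := by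
  have h : (eval z : Po N k →+* k).comp (aeval G : Po N k →ₐ[k] Po N k).toRingHom =
      eval (pmap G z) := by
    apply MvPolynomial.ringHom_ext
    · intro r
      simp
    · intro i
      simp [pmap]
  exact congrArg (fun g : Po N k →+* k => g q) h

lemma eval_iter (f : Tup N k) (m : ℕ) (z : Fin N → k) (q : Po N k) :
    eval z ((aeval f : Po N k →ₐ[k] Po N k)^[m] q) = eval ((pmap f)^[m] z) q := by
  induction m generalizing z q with
  | zero => rfl
  | succ m ih =>
    rw [Function.iterate_succ_apply', eval_aeval', ih, Function.iterate_succ_apply]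

lemma pmap_Af (a : Fin N → k) (t : k) (z : Fin N → k) :
    pmap (Af a t) z = fun i => a i + t * z i := by
  funext i
  simp [pmap, Af]

/-- the inverse of the affine map -/
noncomputable def Bf (a : Fin N → k) (t : k) : Tup N k := fun i => C t⁻¹ * (X i - C (a i))

/-- the automorphism of the polynomial ring -/
noncomputable def AfE (a : Fin N → k) (t : k) (ht : t ≠ 0) : Po N k ≃ₐ[k] Po N k :=
  AlgEquiv.ofAlgHom (aeval (Af a t)) (aeval (Bf a t))
    (by
      apply MvPolynomial.algHom_ext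
      intro i
      simp only [AlgHom.comp_apply, aeval_X, Bf, Af, map_mul, map_sub, AlgHom.id_apply, algHom_C]
      rw [MvPolynomial.algebraMap_eq, add_sub_cancel_left, ← mul_assoc, ← C_mul,
        inv_mul_cancel₀ ht, C_1, one_mul])
    (by
      apply MvPolynomial.algHom_ext
      intro i
      simp only [AlgHom.comp_apply, aeval_X, Bf, Af, map_mul, map_add, AlgHom.id_apply, algHom_C]
      rw [MvPolynomial.algebraMap_eq, ← mul_assoc, ← C_mul, mul_inv_cancel₀ ht, C_1, one_mul,
        add_sub_cancel])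

lemma AfE_apply (a : Fin N → k) (t : k) (ht : t ≠ 0) (q : Po N k) :
    AfE a t ht q = aeval (Af a t) q := rfl

/-- the automorphism of the field of rational functions -/
noncomputable def lamE (a : Fin N → k) (t : k) (ht : t ≠ 0) : KN N k ≃ₐ[k] KN N k :=
  IsFractionRing.algEquivOfAlgEquiv (AfE a t ht)

lemma lamE_fr (a : Fin N → k) (t : k) (ht : t ≠ 0) (q : Po N k) :
    lamE a t ht (fr q) = fr (aeval (Af a t) q) := by
  unfold lamE
  rw [IsFractionRing.algEquivOfAlgEquiv_algebraMap, AfE_apply]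

lemma conj_poly [Infinite k] {f G : Tup N k} {K₀ : ℕ} {a : Fin N → k} {t : k}
    (h : Cj f G K₀ a t) (q : Po N k) :
    aeval (Af a t) ((aeval f : Po N k →ₐ[k] Po N k)^[K₀] q) = aeval G (aeval (Af a t) q) := by
  apply MvPolynomial.funext
  intro z
  rw [eval_aeval', eval_iter, eval_aeval', eval_aeval', pmap_Af, pmap_Af, h.2.2]

lemma ext_iter {f : Tup N k} {τ : KN N k →ₐ[k] KN N k} (h : Pool.Agent.H55.FFM.Ext f τ) (m : ℕ)
    (q : Po N k) : τ^[m] (fr q) = fr ((aeval f : Po N k →ₐ[k] Po N k)^[m] q) := by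
  induction m with
  | zero => rfl
  | succ m ih =>
    rw [Function.iterate_succ_apply', ih, h, Function.iterate_succ_apply']

/-- iterates of an endomorphism -/
noncomputable def itA (τ : KN N k →ₐ[k] KN N k) : ℕ → (KN N k →ₐ[k] KN N k)
  | 0 => AlgHom.id k _
  | m + 1 => τ.comp (itA τ m)

lemma itA_apply (τ : KN N k →ₐ[k] KN N k) (m : ℕ) (y : KN N k) : itA τ m y = τ^[m] y := by
  induction m with
  | zero => rfl
  | succ m ih =>
    rw [Function.iterate_succ_apply', ← ih]
    rfl

lemma algHom_ext_fr {σ τ : KN N k →ₐ[k] KN N k} (h : ∀ q : Po N k, σ (fr q) = τ (fr q)) :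
    σ = τ := by
  apply AlgHom.ext
  intro y
  obtain ⟨p, q, -, hpq⟩ := IsFractionRing.div_surjective (A := Po N k) y
  rw [← hpq, map_div₀, map_div₀, h, h]

lemma conj_field [Infinite k] {f G : Tup N k} {K₀ : ℕ} {a : Fin N → k} {t : k}
    {τ₀ τ : KN N k →ₐ[k] KN N k} (h : Cj f G K₀ a t) (h₀ : Pool.Agent.H55.FFM.Ext f τ₀)
    (hτ : Pool.Agent.H55.FFM.Ext G τ) (y : KN N k) :
    lamE a t h.1 (τ₀^[K₀] y) = τ (lamE a t h.1 y) := by
  have h1 : ((lamE a t h.1 : KN N k ≃ₐ[k] KN N k) : KN N k →ₐ[k] KN N k).comp (itA τ₀ K₀) =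
      τ.comp (lamE a t h.1 : KN N k ≃ₐ[k] KN N k) := by
    apply algHom_ext_fr
    intro q
    show lamE a t h.1 (itA τ₀ K₀ (fr q)) = τ (lamE a t h.1 (fr q))
    rw [itA_apply, ext_iter h₀, lamE_fr, lamE_fr, hτ, conj_poly h]
  have h2 := congrArg (fun g : KN N k →ₐ[k] KN N k => g y) h1
  rw [← itA_apply]
  exact h2

lemma conj_field_iter [Infinite k] {f G : Tup N k} {K₀ : ℕ} {a : Fin N → k} {t : k}
    {τ₀ τ : KN N k →ₐ[k] KN N k} (h : Cj f G K₀ a t) (h₀ : Pool.Agent.H55.FFM.Ext f τ₀)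
    (hτ : Pool.Agent.H55.FFM.Ext G τ) (n : ℕ) (y : KN N k) :
    lamE a t h.1 (τ₀^[K₀ * n] y) = τ^[n] (lamE a t h.1 y) := by
  induction n with
  | zero => rfl
  | succ n ih =>
    rw [Function.iterate_succ_apply', ← ih, ← conj_field h h₀ hτ, ← Function.iterate_add_apply]
    congr 2
    rw [mul_add, mul_one, add_comm]

end Pool.Agent.H79.FFM
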